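import Pool.Agent.TH630.TG.Main

/-!
# The torsion part of the conjecture on homology growth and `L²`-torsion is false

The question of `MP_228c3b_gt` asks for (a) `log |tors H_k(X_n)| / [Γ : Γ_n] → 0` for every closed
aspherical manifold `X` and every `k` with `2k+1 ≠ dim X`, and (b) the limit `(-1)^m ρ(X)` for
`k = m` if `dim X = 2m+1` (and `L²`-acyclicity in odd dimensions).

The theorem: let `M` be a closed aspherical manifold of dimension `2c+1` which is `L²`-acyclic and
has `ρ(M) ≠ 0` (for example a closed hyperbolic `3`-manifold), and let `N` be a closed aspherical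
manifold of any dimension such that, for some prime `p` and some `i` with `2i ≠ dim N`, the mod `p`
Betti number `dim H_i(N_n; F_p) / [Λ : Λ_n]` does not tend to `0` along some residual chain. Then
(b) fails for `M`, or (a) fails for `M × N` or for `N × N`. By Avramidi, Okun and Schreve such `N`
exist in all odd dimensions `≥ 7` and in all even dimensions `≥ 14`.

Proof. If (b) holds for `M`, the torsion of `H_c(M_n)` grows exponentially. The torsion of
`H_{c+j}(M_n × N_n)` contains `tors H_c(M_n) ⊗ H_j(N_n)`, so (a) for `M × N` implies that the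
`L²`-Betti number `b_j(N)` vanishes for `2j ≠ dim N`. The torsion of `H_{2j}(N_n × N_n)` contains
`tors H_j(N_n) ⊗ tors H_j(N_n)`, so (a) for `N × N` implies that the `p`-rank of `tors H_j(N_n)`
grows sublinearly. Hence so does `dim H_i(N_n; F_p)`.
-/

namespace Pool.Agent.Results.MP_228c3b_gt.TorsionPartFails

open TH630.TG Filter Topology

theorem result (T : AsphericalTowers) (M N : T.Man) (c : ℕ)
    (hM : T.dim M = 2 * c + 1) (hac : ∀ j, T.b2 M j = 0) (hρ : T.rho M ≠ 0)
    (p : ℕ) [Fact p.Prime] (i : ℕ) (hi : 2 * i ≠ T.dim N)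
    (hg : ¬ Tendsto (T.modGrowth p N i) atTop (𝓝 0)) :
    (¬ Tendsto (T.torsGrowth M c) atTop (𝓝 ((-1) ^ c * T.rho M))) ∨
    (∃ k, 2 * k + 1 ≠ T.dim (T.prod M N) ∧
      ¬ Tendsto (T.torsGrowth (T.prod M N) k) atTop (𝓝 0)) ∨
    (∃ k, 2 * k + 1 ≠ T.dim (T.prod N N) ∧
      ¬ Tendsto (T.torsGrowth (T.prod N N) k) atTop (𝓝 0)) := by
  by_contra hno
  push Not at hno
  obtain ⟨h1, h2, h3⟩ := hno
  have H1 : T.Holds M := by
    intro k hk _
    have : k = c := by omega
    rw [this]; exact h1
  have hb : ∀ j, 2 * j ≠ T.dim N → Tendsto (fun n => (Module.finrank ℤ (T.H N n j) : ℝ) /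
      (T.deg N n : ℝ)) atTop (𝓝 0) := fun j hj => by
    have := T.lueck N j
    rwa [AsphericalTowers.b2_zero_of_off M N c j hM hac hρ H1 h2 hj] at this
  have hr : ∀ j, Tendsto (fun n => (pRank p (Submodule.torsion ℤ (T.H N n j)) : ℝ) /
      (T.deg N n : ℝ)) atTop (𝓝 0) := fun j =>
    AsphericalTowers.rank_of_square p N j (h3 (j + j) (by rw [T.dim_prod]; omega))
  have key : ∀ j, 2 * j ≠ T.dim N →
      Tendsto (fun n => (pRank p (T.H N n j) : ℝ) / (T.deg N n : ℝ)) atTop (𝓝 0) := by
    intro j hj
    have h1 := (hb j hj).add (hr j)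
    rw [add_zero] at h1
    refine squeeze_zero (fun n => div_nonneg (Nat.cast_nonneg _) (Nat.cast_nonneg _))
      (fun n => ?_) h1
    rw [← add_div]
    refine div_le_div_of_nonneg_right ?_ (Nat.cast_nonneg _)
    exact_mod_cast pRank_le p
  apply hg
  cases i with
  | zero => exact key 0 hi
  | succ i =>
    have h1 := (key (i + 1) hi).add (hr i)
    rw [add_zero] at h1
    refine h1.congr fun n => ?_
    rw [← add_div, ← Nat.cast_add]
    rfl

end Pool.Agent.Results.MP_228c3b_gt.TorsionPartFails
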